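import Pool.Agent.H94.T1.S6

/-!
helper87, T1: row DDK (the derivation on polynomials).
-/

set_option autoImplicit false

namespace Pool.T1

open Polynomial Matrix Pool.HYP Pool.TOW Pool.AVS IsDedekindDomain

namespace DDKp

variable {R : Type} [CommRing R] (Δ : Derivation ℤ R R)

theorem co (f : R[X]) (j : ℕ) : (dD Δ f).coeff j = Δ (f.coeff j) := by
  rw [dD, finsetSum_coeff]
  simp only [coeff_C_mul_X_pow]
  rw [Finset.sum_ite_eq]
  split_ifs with h
  · rfl
  · rw [coeff_eq_zero_of_natDegree_lt, map_zero]
    simp only [Finset.mem_range, not_lt] at h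
    omega

end DDKp

theorem ddk : DDKStmt := by
  intro R _ Δ
  have co := DDKp.co Δ
  refine ⟨co, ?_, ?_, ?_⟩
  · intro f g
    ext j
    rw [co, coeff_add, coeff_add, co, co, map_add]
  · intro f g
    ext j
    rw [co, coeff_mul, coeff_add, coeff_mul, coeff_mul, map_sum, ← Finset.sum_add_distrib]
    refine Finset.sum_congr rfl fun x _ => ?_
    rw [co, co, Derivation.leibniz, smul_eq_mul, smul_eq_mul]
    ring
  · intro c
    ext j
    rw [co, coeff_C, coeff_C]
    split_ifs
    · rfl
    · exact map_zero _

end Pool.T1
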