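import Pool.Agent.H58.T1.S1

/-!
helper87, T1: row GRE (the primes).
-/

set_option autoImplicit false

namespace Pool.T1

open Polynomial Matrix Pool.HYP Pool.TOW Pool.AVS IsDedekindDomain

namespace GREp

theorem sub_mem {R : Type} [CommRing R] {K : Type} [Field K] [Algebra R K]
    {O : ValuationSubring K} {π : K} {m : ℤ} {a b : R} (ha : a ∈ Lm R O π m)
    (hb : b ∈ Lm R O π m) : a - b ∈ Lm R O π m := by
  simp only [Lm, Set.mem_ofPred_eq, map_sub, sub_mul] at *
  exact _root_.sub_mem ha hb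

variable {R : Type} [CommRing R] [IsDedekindDomain R] {K : Type} [Field K] [Algebra R K]
    [IsFractionRing R K] {O : ValuationSubring K} {π : K}

/-- arbitrarily many elements -/
theorem big (hA : GRAStmt) (h : GR R O π) (b : ℕ) : ∃ m : ℕ, b < (Lm R O π (m : ℤ)).ncard := by
  obtain ⟨h3, _, _, ⟨c, hc⟩, _⟩ := hA R K O π h
  refine ⟨c * b, ?_⟩
  have h1 := hc (c * b)
  have h2 : c * b < qq O ^ (c * b) := Nat.lt_pow_self (by omega)
  have h4 : qq O ^ (c * b) ≤ qq O ^ (c * b + 1) := Nat.pow_le_pow_right (by omega) (by omega)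
  exact lt_of_mul_lt_mul_left (lt_of_lt_of_le (lt_of_lt_of_le h2 h4) h1) (Nat.zero_le c)

theorem fin_le (hA : GRAStmt) (h : GR R O π) (b : ℕ) :
    {P : HeightOneSpectrum R | Nm P ≤ b}.Finite := by
  obtain ⟨m, hm⟩ := big hA h b
  obtain ⟨_, hf, _, _, _⟩ := hA R K O π h
  have hfin := (hf m).1
  have hU : (⋃ a ∈ (Lm R O π (m : ℤ)) \ {0},
      {v : HeightOneSpectrum R | v.asIdeal ∣ Ideal.span {a}}).Finite := by
    refine Set.Finite.biUnion (hfin.subset Set.sdiff_subset) ?_
    intro a ha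
    apply Ideal.finite_factors
    intro h0
    exact ha.2 (by simpa [Ideal.span_singleton_eq_bot] using h0)
  refine hU.subset ?_
  intro P hP
  have hfP : Finite (R ⧸ P.asIdeal) := h.fin _ P.ne_bot
  have hlt : (Set.univ : Set (R ⧸ P.asIdeal)).ncard < (Lm R O π (m : ℤ)).ncard := by
    rw [Set.ncard_univ]
    exact lt_of_le_of_lt hP hm
  obtain ⟨x, hx, y, hy, hxy, he⟩ := Set.exists_ne_map_eq_of_ncard_lt_of_maps_to hlt
    (f := Ideal.Quotient.mk P.asIdeal) (fun a _ => Set.mem_univ _)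
  rw [Ideal.Quotient.eq] at he
  refine Set.mem_biUnion (x := x - y) ⟨sub_mem hx hy, ?_⟩ ?_
  · intro h0
    exact hxy (sub_eq_zero.mp h0)
  · rw [Set.mem_ofPred_eq, Ideal.dvd_span_singleton]
    exact he

theorem inf (hA : GRAStmt) (h : GR R O π) : Infinite R := by
  by_contra hc
  rw [not_infinite_iff_finite] at hc
  obtain ⟨m, hm⟩ := big hA h (Nat.card R)
  have := Set.ncard_le_ncard (Set.subset_univ (Lm R O π (m : ℤ))) Set.finite_univ
  rw [Set.ncard_univ] at this
  omega

theorem unit (hD : GRDStmt) (h : GR R O π) (h3 : 3 ≤ qq O) (a : R)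
    (ha : ∀ P : HeightOneSpectrum R, a ∉ P.asIdeal) : a ∈ Lm R O π 0 := by
  by_cases h0 : a = 0
  · subst h0
    simp [Lm, O.zero_mem]
  · obtain ⟨n, _, _, hn, hm⟩ := hD R K O π h a h0
    rw [hm]
    have hu : IsUnit a := by
      by_contra hnu
      obtain ⟨M, hM, haM⟩ := exists_max_ideal_of_mem_nonunits hnu
      have hMb : M ≠ ⊥ := by
        intro hb
        rw [hb, Ideal.mem_bot] at haM
        exact h0 haM
      exact ha ⟨M, hM.isPrime, hMb⟩ haM
    rw [Ideal.span_singleton_eq_top.mpr hu] at hn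
    have : Nat.card (R ⧸ (⊤ : Ideal R)) = 1 := by
      rw [Nat.card_eq_one_iff_unique]
      exact ⟨Ideal.Quotient.subsingleton_iff.mpr rfl, inferInstance⟩
    rw [this] at hn
    rcases Nat.eq_zero_or_pos n with h1 | h1
    · rw [h1]; simp
    · have := Nat.lt_pow_self (n := n) (show 1 < qq O by omega)
      have h5 : 1 < qq O ^ n := Nat.one_lt_pow (by omega) (by omega)
      omega

theorem ex (hA : GRAStmt) (hD : GRDStmt) (h : GR R O π) (A : Finset (HeightOneSpectrum R)) :
    ∃ P : HeightOneSpectrum R, P ∉ A := by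
  by_contra hcon
  push Not at hcon
  obtain ⟨h3, hf, _, _, _⟩ := hA R K O π h
  have hinf : Infinite R := inf hA h
  have hI : (∏ P ∈ A, P.asIdeal) ≠ ⊥ := by
    rw [← Ideal.zero_eq_bot]
    exact Finset.prod_ne_zero_iff.mpr fun P _ => P.ne_bot
  obtain ⟨b, hb, hb0⟩ := Submodule.exists_mem_ne_zero_of_ne_bot hI
  have hin : ∀ r : R, 1 + r * b ∈ Lm R O π 0 := by
    intro r
    apply unit hD h h3
    intro P hP
    have hbP : b ∈ P.asIdeal := Ideal.prod_le_inf.trans (Finset.inf_le (hcon P)) hb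
    have h1 := P.asIdeal.sub_mem hP (P.asIdeal.mul_mem_left r hbP)
    rw [add_sub_cancel_right] at h1
    exact P.isPrime.ne_top ((Ideal.eq_top_iff_one _).mpr h1)
  have hfin := (hf 0).1
  have hinj : Function.Injective (fun r : R => 1 + r * b) := by
    intro r s hrs
    exact mul_right_cancel₀ hb0 (add_left_cancel hrs)
  exact (Set.infinite_of_injective_forall_mem hinj hin) hfin

end GREp

theorem gre (hA : GRAStmt) (hD : GRDStmt) : GREStmt := by
  intro R _ _ K _ _ _ O π h
  exact ⟨fun b => GREp.fin_le hA h b, fun A => GREp.ex hA hD h A⟩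

end Pool.T1
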