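import Pool.Agent.H29.T1.S2

/-!
helper87, T1: row LINB (isotropic subgroups).
-/

set_option autoImplicit false

namespace Pool.T1

open Polynomial Matrix Pool.HYP Pool.TOW Pool.AVS IsDedekindDomain

theorem linb : LINBStmt := by
  classical
  intro I T
  induction T using Finset.induction_on with
  | empty =>
    intro W _ _
    exact ⟨∅, subset_rfl, fun x _ _ _ P hP => absurd hP (Finset.notMem_empty P)⟩
  | insert P T0 hP ih =>
    intro W hadd hiso
    by_cases h1 : ∀ x ∈ W, (x P).1 = 0 → (∀ Q ∈ T0, x Q = 0) → x P = 0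
    · obtain ⟨S, hS, hS2⟩ := ih {x | x ∈ W ∧ (x P).1 = 0}
        (by
          rintro x ⟨hx, hx1⟩ y ⟨hy, hy1⟩
          refine ⟨hadd x hx y hy, ?_⟩
          show (x P).1 + (y P).1 = 0
          rw [hx1, hy1, add_zero])
        (by
          rintro x ⟨hx, hx1⟩ y ⟨hy, hy1⟩
          have := hiso x hx y hy
          rw [Finset.sum_insert hP, hx1, hy1, zero_mul, mul_zero, add_zero, zero_add] at this
          exact this)
      refine ⟨S, hS.trans (Finset.subset_insert P T0), ?_⟩
      intro x hx ha hb
      have hx1 : (x P).1 = 0 := hb P (Finset.mem_insert_self P T0) (fun h => hP (hS h))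
      have h0 := hS2 x ⟨hx, hx1⟩ ha (fun Q hQ hQS => hb Q (Finset.mem_insert_of_mem hQ) hQS)
      intro Q hQ
      rcases Finset.mem_insert.1 hQ with rfl | hQ
      · exact h1 x hx hx1 h0
      · exact h0 Q hQ
    · push Not at h1
      obtain ⟨z, hz, hz1, hz0, hzP⟩ := h1
      have hz2 : (z P).2 ≠ 0 := fun h => hzP (Prod.ext hz1 h)
      have h2 : ∀ x ∈ W, (x P).2 = 0 → (∀ Q ∈ T0, x Q = 0) → x P = 0 := by
        intro x hx hx2 hx0
        have := hiso x hx z hz
        rw [Finset.sum_insert hP, Finset.sum_eq_zero (s := T0), hz1, hx2, zero_mul, add_zero,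
          add_zero] at this
        · refine Prod.ext ?_ hx2
          rcases mul_eq_zero.1 this with h | h
          · exact h
          · exact absurd h hz2
        · intro Q hQ
          rw [hx0 Q hQ]
          show (0 : ZMod 2) * _ + (0 : ZMod 2) * _ = 0
          rw [zero_mul, zero_mul, add_zero]
      obtain ⟨S, hS, hS2⟩ := ih {x | x ∈ W ∧ (x P).2 = 0}
        (by
          rintro x ⟨hx, hx1⟩ y ⟨hy, hy1⟩
          refine ⟨hadd x hx y hy, ?_⟩
          show (x P).2 + (y P).2 = 0
          rw [hx1, hy1, add_zero])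
        (by
          rintro x ⟨hx, hx1⟩ y ⟨hy, hy1⟩
          have := hiso x hx y hy
          rw [Finset.sum_insert hP, hx1, hy1, zero_mul, mul_zero, add_zero, zero_add] at this
          exact this)
      refine ⟨insert P S, Finset.insert_subset_insert P hS, ?_⟩
      intro x hx ha hb
      have hx2 : (x P).2 = 0 := ha P (Finset.mem_insert_self P S)
      have h0 := hS2 x ⟨hx, hx2⟩ (fun Q hQ => ha Q (Finset.mem_insert_of_mem hQ))
        (fun Q hQ hQS => hb Q (Finset.mem_insert_of_mem hQ) (fun h => by
          rcases Finset.mem_insert.1 h with rfl | h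
          · exact hP hQ
          · exact hQS h))
      intro Q hQ
      rcases Finset.mem_insert.1 hQ with rfl | hQ
      · exact h2 x hx hx2 h0
      · exact h0 Q hQ

end Pool.T1
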