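import Pool.Agent.H14.T1.S3
import Pool.Agent.H14.T1.Tau
import Pool.Agent.H69.AVS.POL

/-!
helper87, T1: row RSD (the residue at `P`).
-/

set_option autoImplicit false

namespace Pool.T1

open Polynomial Matrix Pool.HYP Pool.TOW Pool.AVS IsDedekindDomain

namespace RSDp

variable {F : Type} [Field F] {P : F[X]}

/-- `x` is `a / P^j` plus a regular element, and the residue is `c`. -/
def Rep (P : F[X]) (x : RatFunc F) (c : F) : Prop :=
  ∃ (a : F[X]) (j : ℕ) (y : RatFunc F), y ∈ IP P ∧ x = rf a / rf P ^ j + y ∧ c = tau (P ^ j) a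

theorem tau_shift (hm : P.Monic) (hP : Irreducible P) (a : F[X]) (j k : ℕ) :
    tau (P ^ (j + k)) (a * P ^ k) = tau (P ^ j) a := by
  rcases Nat.eq_zero_or_pos j with rfl | hj
  · rw [pow_zero, zero_add, tau_dvd (hm.pow k) (Dvd.intro_left _ rfl),
      tau_dvd monic_one (one_dvd a)]
  · rw [_root_.pow_add]
    apply tau_mul_right (hm.pow j) (hm.pow k)
    rw [hm.natDegree_pow]
    have := hP.natDegree_pos
    exact Nat.mul_pos hj this

theorem P_ne (hP : Irreducible P) : rf P ≠ 0 := RatFunc.algebraMap_ne_zero hP.ne_zero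

theorem uniq (hm : P.Monic) (hP : Irreducible P) {x : RatFunc F} {c c' : F} (h : Rep P x c)
    (h' : Rep P x c') : c = c' := by
  obtain ⟨a, j, y, hy, hx, rfl⟩ := h
  obtain ⟨a', j', y', hy', hx', rfl⟩ := h'
  have hP0 := P_ne hP
  have e : rf (a * P ^ j' - a' * P ^ j) / rf P ^ (j + j') = y' + -y := by
    have e1 : rf a / rf P ^ j + y = rf a' / rf P ^ j' + y' := by rw [← hx, ← hx']
    have e2 : rf (a * P ^ j' - a' * P ^ j) = rf a * rf P ^ j' - rf a' * rf P ^ j := by
      simp only [rf, map_sub, map_mul, map_pow]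
    rw [e2, _root_.pow_add]
    field_simp at e1 ⊢
    linear_combination e1
  have hmem : rf (a * P ^ j' - a' * P ^ j) / rf P ^ (j + j') ∈ IP P := by
    rw [e]
    exact (AVS.POL.part2 P hP _ _ hy' (AVS.POL.part2 P hP _ _ hy hy).2.2).1
  have hd := ((AVS.POL.part3 P _ hP).2 (j + j')).1 hmem
  have ht := tau_congr (hm.pow (j + j')) hd
  rw [tau_shift hm hP, add_comm, tau_shift hm hP] at ht
  exact ht

theorem mem_div {a b : F[X]} (hb : ¬ P ∣ b) : rf a / rf b ∈ IP P := by
  intro h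
  exact hb (h.trans (RatFunc.denom_div_dvd a b))

theorem exi (hP : Irreducible P) (x : RatFunc F) : ∃ c, Rep P x c := by
  have hf : FiniteMultiplicity P x.denom :=
    FiniteMultiplicity.of_not_isUnit hP.not_isUnit (RatFunc.denom_ne_zero x)
  obtain ⟨v, hv, hv2⟩ := hf.exists_eq_pow_mul_and_not_dvd
  set j := multiplicity P x.denom with hj
  have hcop : IsCoprime (P ^ j) v := ((hP.coprime_iff_not_dvd).2 hv2).pow_left
  obtain ⟨r, s, hrs⟩ := hcop
  have hP0 := P_ne hP
  have hv0 : rf v ≠ 0 := RatFunc.algebraMap_ne_zero (fun h => hv2 (h ▸ dvd_zero P))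
  refine ⟨_, x.num * s, j, rf (x.num * r) / rf v, mem_div hv2, ?_, rfl⟩
  conv_lhs => rw [← RatFunc.num_div_denom x, hv]
  have h1 : rf r * rf P ^ j + rf s * rf v = 1 := by
    have := congrArg rf hrs
    simpa only [rf, map_add, map_mul, map_pow, map_one] using this
  simp only [rf, map_mul, map_pow] at h1 hP0 hv0 ⊢
  field_simp
  linear_combination (-1 : RatFunc F) * (algebraMap F[X] (RatFunc F) x.num) * h1

theorem add {x x' : RatFunc F} {c c' : F} (hm : P.Monic) (hP : Irreducible P) (h : Rep P x c)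
    (h' : Rep P x' c') : Rep P (x + x') (c + c') := by
  obtain ⟨a, j, y, hy, hx, rfl⟩ := h
  obtain ⟨a', j', y', hy', hx', rfl⟩ := h'
  have hP0 := P_ne hP
  refine ⟨a * P ^ j' + a' * P ^ j, j + j', y + y', (AVS.POL.part2 P hP _ _ hy hy').1, ?_, ?_⟩
  · rw [hx, hx']
    simp only [rf, map_add, map_mul, map_pow] at hP0 ⊢
    rw [_root_.pow_add]
    field_simp
    ring
  · rw [tau_add, tau_shift hm hP, add_comm j j', tau_shift hm hP]

theorem mulP {x : RatFunc F} {c : F} {a : F[X]} {j : ℕ} {y : RatFunc F} (hP : Irreducible P)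
    (h : F[X]) (hy : y ∈ IP P) (hx : x = rf a / rf P ^ j + y) :
    rf h * y ∈ IP P ∧ rf h * x = rf (h * a) / rf P ^ j + rf h * y := by
  refine ⟨(AVS.POL.part2 P hP _ _ (AVS.POL.part3 P h hP).1 hy).2.1, ?_⟩
  rw [hx]
  simp only [rf, map_mul]
  ring

/-- the residue -/
noncomputable def rho (hP : Irreducible P) (x : RatFunc F) : F := (exi hP x).choose

theorem rho_spec (hP : Irreducible P) (x : RatFunc F) : Rep P x (rho hP x) :=
  (exi hP x).choose_spec

theorem rsd (hm : P.Monic) (hP : Irreducible P) : Rsd P (rho hP) where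
  add x y := uniq hm hP (rho_spec hP _) (add hm hP (rho_spec hP x) (rho_spec hP y))
  smul c x := by
    obtain ⟨a, j, y, hy, hx, hc⟩ := rho_spec hP x
    obtain ⟨h1, h2⟩ := mulP (c := c) hP (C c) hy hx
    refine uniq hm hP (rho_spec hP _) ⟨C c * a, j, _, h1, h2, ?_⟩
    rw [tau_C_mul, hc]
  zero x hx := uniq hm hP (rho_spec hP _) ⟨0, 0, x, hx, by simp [rf], by rw [tau_zero]⟩
  pole a j := uniq hm hP (rho_spec hP _)
    ⟨a, j, 0, by simpa [rf] using (AVS.POL.part3 P 0 hP).1, by rw [add_zero], rfl⟩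

theorem two (hm : P.Monic) (hP : Irreducible P) (ρ : RatFunc F → F) (hρ : Rsd P ρ)
    (x : RatFunc F) (hx : ∀ h : F[X], ρ (rf h * x) = 0) : x ∈ IP P := by
  obtain ⟨a, j, y, hy, hxe, _⟩ := rho_spec hP x
  have h1 : ∀ h : F[X], tau (P ^ j) (h * a) = 0 := by
    intro h
    obtain ⟨h1, h2⟩ := mulP (c := (0 : F)) hP h hy hxe
    have := hx h
    rw [h2, hρ.add, hρ.pole, hρ.zero _ h1, add_zero] at this
    exact this
  have hd : P ^ j ∣ a := dvd_of_tau (hm.pow j) (fun i _ => h1 (X ^ i))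
  rw [hxe]
  exact (AVS.POL.part2 P hP _ _ (((AVS.POL.part3 P a hP).2 j).2 hd) hy).1

end RSDp

theorem rsd : RSDStmt := by
  intro F _ P hm hP
  exact ⟨⟨RSDp.rho hP, RSDp.rsd hm hP⟩, fun ρ hρ x hx => RSDp.two hm hP ρ hρ x hx⟩

end Pool.T1
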